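import Mathlib

/-!
# The pattern `T₁` does not occur in an above/below graph of points and pseudolines
-/

set_option autoImplicit false

namespace Pool.Agent.Helper18.TreeSpeed

/-- Single crossing: no two height functions change their order twice. -/
def SC {L : Type*} (H : L → ℤ → ℤ) : Prop :=
  ∀ (a b : L) (x y z : ℤ), x < y → y < z → H b x < H a x → H a y < H b y → H b z < H a z → False

lemma SC.neg {L : Type*} {H : L → ℤ → ℤ} (h : SC H) : SC (fun l x => - H l x) := by
  intro a b x y z hxy hyz h1 h2 h3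
  exact h b a x y z hxy hyz (by simpa using h1) (by simpa using h2) (by simpa using h3)

/-- Betweenness: if `a, b, c` have private points in this horizontal order and the point `r` is
below `a` and `c`, then it is below `b`. -/
lemma convex {L P : Type*} {H : L → ℤ → ℤ} (hSC : SC H) (X Y : P → ℤ) {a b c : L}
    {qa qb qc r : P}
    (h1 : Y qa < H a (X qa)) (h1' : ¬ Y qa < H b (X qa))
    (h2 : Y qb < H b (X qb)) (h2' : ¬ Y qb < H a (X qb)) (h2'' : ¬ Y qb < H c (X qb))
    (h3 : Y qc < H c (X qc)) (h3' : ¬ Y qc < H b (X qc))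
    (hab : X qa < X qb) (hbc : X qb < X qc)
    (hra : Y r < H a (X r)) (hrc : Y r < H c (X r)) : Y r < H b (X r) := by
  push Not at h1' h2' h2'' h3'
  rcases le_or_gt (X r) (X qb) with hx | hx
  · -- `c` is not above `b` at `X r`
    refine lt_of_lt_of_le hrc ?_
    by_contra hlt
    push Not at hlt
    rcases lt_or_eq_of_le hx with hx' | hx'
    · exact hSC c b (X r) (X qb) (X qc) hx' hbc hlt (by omega) (by omega)
    · rw [hx'] at hlt
      omega
  · refine lt_of_lt_of_le hra ?_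
    by_contra hlt
    push Not at hlt
    exact hSC a b (X qa) (X qb) (X r) hab hx (by omega) (by omega) hlt

/-- The pattern of the tree `T₁`. -/
structure Pattern {P L : Type*} (R : P → L → Prop) where
  /-- centre -/
  p : P
  /-- the three subdivision points -/
  s : Fin 3 → P
  /-- the private points -/
  q : Fin 6 → P
  /-- the lines -/
  l : Fin 6 → L
  hp : ∀ j, R p (l j) ↔ j.val < 3
  hs : ∀ i j, R (s i) (l j) ↔ (j.val = i.val ∨ j.val = i.val + 3)
  hq : ∀ i j, R (q i) (l j) ↔ i = j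

lemma no_pattern_mid {L P : Type*} {H : L → ℤ → ℤ} (hSC : SC H) (X Y : P → ℤ)
    (A : Pattern (fun (p : P) (l : L) => Y p < H l (X p))) (i₁ i₂ i₃ : Fin 6)
    (h1 : i₁.val < 3) (h2 : i₂.val < 3) (h3 : i₃.val < 3)
    (h12 : X (A.q i₁) < X (A.q i₂)) (h23 : X (A.q i₂) < X (A.q i₃)) : False := by
  have hlt : ∀ i j : Fin 6, i ≠ j → H (A.l j) (X (A.q i)) < H (A.l i) (X (A.q i)) := by
    intro i j hij
    have h1 := (A.hq i i).2 rfl
    have h2 : ¬ _ := fun h => hij ((A.hq i j).1 h)
    push Not at h2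
    exact lt_of_le_of_lt h2 h1
  have hne : ∀ i j : Fin 6, i ≠ j → X (A.q i) ≠ X (A.q j) := by
    intro i j hij he
    have h1 := hlt i j hij
    have h2 := hlt j i hij.symm
    rw [he] at h1
    omega
  have key : ∀ (a b c : Fin 6) (r : P), a ≠ b → b ≠ c → X (A.q a) < X (A.q b) →
      X (A.q b) < X (A.q c) → Y r < H (A.l a) (X r) → Y r < H (A.l c) (X r) →
      Y r < H (A.l b) (X r) := by
    intro a b c r hab hbc hx1 hx2 hra hrc
    exact convex hSC X Y ((A.hq a a).2 rfl) (fun h => hab ((A.hq a b).1 h))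
      ((A.hq b b).2 rfl) (fun h => hab ((A.hq b a).1 h).symm) (fun h => hbc ((A.hq b c).1 h))
      ((A.hq c c).2 rfl) (fun h => hbc ((A.hq c b).1 h).symm) hx1 hx2 hra hrc
  have n12 : i₁ ≠ i₂ := fun h => by rw [h] at h12; omega
  have n23 : i₂ ≠ i₃ := fun h => by rw [h] at h23; omega
  have v12 : i₁.val ≠ i₂.val := fun h => n12 (Fin.ext h)
  have v23 : i₂.val ≠ i₃.val := fun h => n23 (Fin.ext h)
  -- the second line of the middle branch
  obtain ⟨b', hb'⟩ : ∃ b' : Fin 6, b'.val = i₂.val + 3 := ⟨⟨i₂.val + 3, by omega⟩, rfl⟩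
  have hs2 : Y (A.s ⟨i₂.val, h2⟩) < H (A.l i₂) (X (A.s ⟨i₂.val, h2⟩)) :=
    (A.hs _ _).2 (Or.inl rfl)
  have hs2' : Y (A.s ⟨i₂.val, h2⟩) < H (A.l b') (X (A.s ⟨i₂.val, h2⟩)) :=
    (A.hs _ _).2 (Or.inr hb')
  have nb1 : b' ≠ i₁ := fun h => by rw [h] at hb'; omega
  have nb3 : b' ≠ i₃ := fun h => by rw [h] at hb'; omega
  rcases lt_or_gt_of_ne (hne b' i₁ nb1) with h | h
  · have := key b' i₁ i₂ _ nb1 n12 h h12 hs2' hs2
    rcases (A.hs ⟨i₂.val, h2⟩ i₁).1 this with h | h <;> simp at h <;> omega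
  rcases lt_or_gt_of_ne (hne b' i₃ nb3) with h' | h'
  · have := key i₁ b' i₃ A.p nb1.symm nb3 h h' ((A.hp _).2 h1) ((A.hp _).2 h3)
    have := (A.hp b').1 this
    omega
  · have := key i₂ i₃ b' _ n23 nb3.symm h23 h' hs2 hs2'
    rcases (A.hs ⟨i₂.val, h2⟩ i₃).1 this with h | h <;> simp at h <;> omega

/-- The pattern does not occur in an above/below graph. -/
theorem no_pattern {L P : Type*} {H : L → ℤ → ℤ} (hSC : SC H) (X Y : P → ℤ)
    (A : Pattern (fun (p : P) (l : L) => Y p < H l (X p))) : False := by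
  have hlt : ∀ i j : Fin 6, i ≠ j → H (A.l j) (X (A.q i)) < H (A.l i) (X (A.q i)) := by
    intro i j hij
    have h1 := (A.hq i i).2 rfl
    have h2 : ¬ _ := fun h => hij ((A.hq i j).1 h)
    push Not at h2
    exact lt_of_le_of_lt h2 h1
  have hne : ∀ i j : Fin 6, i ≠ j → X (A.q i) ≠ X (A.q j) := by
    intro i j hij he
    have h1 := hlt i j hij
    have h2 := hlt j i hij.symm
    rw [he] at h1
    omega
  have m := no_pattern_mid hSC X Y A
  have e01 := hne 0 1 (by decide)
  have e12 := hne 1 2 (by decide)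
  have e02 := hne 0 2 (by decide)
  have h0 : (0 : Fin 6).val < 3 := by decide
  have h1 : (1 : Fin 6).val < 3 := by decide
  have h2 : (2 : Fin 6).val < 3 := by decide
  rcases lt_or_gt_of_ne e01 with a | a <;> rcases lt_or_gt_of_ne e12 with b | b <;>
    rcases lt_or_gt_of_ne e02 with c | c
  · exact m 0 1 2 h0 h1 h2 a b
  · omega
  · exact m 0 2 1 h0 h2 h1 c b
  · exact m 2 0 1 h2 h0 h1 c a
  · exact m 1 0 2 h1 h0 h2 a c
  · exact m 1 2 0 h1 h2 h0 b c
  · omega
  · exact m 2 1 0 h2 h1 h0 b a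

/-- The same for the complementary relation. -/
theorem no_pattern_compl {L P : Type*} {H : L → ℤ → ℤ} (hSC : SC H) (X Y : P → ℤ)
    (hne : ∀ p l, Y p ≠ H l (X p))
    (A : Pattern (fun (p : P) (l : L) => ¬ Y p < H l (X p))) : False := by
  have e : (fun (p : P) (l : L) => ¬ Y p < H l (X p))
      = fun p l => (fun p => - Y p) p < (fun l x => - H l x) l (X p) := by
    funext p l
    simp only [eq_iff_iff]
    have := hne p l
    omega
  rw [e] at A
  exact no_pattern hSC.neg X (fun p => - Y p) A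

end Pool.Agent.Helper18.TreeSpeed
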