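import Pool.Agent.Helper18.TreeSpeed.Extract

/-!
# The superfactorial family
-/

set_option autoImplicit false

namespace Pool.Agent.Helper18.TreeSpeed

lemma sc_lines {L : Type*} (m c : L → ℤ) (σ : L → ℤ → ℤ)
    (hinj : ∀ a b, m a = m b → c a = c b → a = b)
    (hσ : ∀ l x, σ l x = 1 ∨ σ l x = -1) :
    SC (fun l x => 5 * (m l * x + c l) + σ l x) := by
  intro a b x y z hxy hyz h1 h2 h3
  simp only at h1 h2 h3
  have bd : ∀ l x, -1 ≤ σ l x ∧ σ l x ≤ 1 := by
    intro l x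
    rcases hσ l x with h | h <;> omega
  have a1 := bd a x
  have a2 := bd a y
  have a3 := bd a z
  have b1 := bd b x
  have b2 := bd b y
  have b3 := bd b z
  rcases lt_trichotomy (m a) (m b) with h | h | h
  · -- difference decreasing: use y < z
    have h5 : 1 ≤ (m b - m a) * (z - y) := by
      have : 0 < (m b - m a) * (z - y) := mul_pos (by omega) (by omega)
      omega
    have e : (m b - m a) * (z - y) = m b * z - m b * y - m a * z + m a * y := by ring
    rw [e] at h5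
    omega
  · rw [h] at h1 h2
    have hc : c a = c b := by omega
    have hab := hinj a b h hc
    rw [hab] at h1
    exact lt_irrefl _ h1
  · have h5 : 1 ≤ (m a - m b) * (y - x) := by
      have : 0 < (m a - m b) * (y - x) := mul_pos (by omega) (by omega)
      omega
    have e : (m a - m b) * (y - x) = m a * y - m a * x - m b * y + m b * x := by ring
    rw [e] at h5
    omega

variable (k : ℕ)

/-- points -/
abbrev PT := Fin k × Fin (2 * k ^ 2)

/-- lines -/
abbrev LN := Fin k × Fin (k ^ 2)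

/-- The relation. -/
def Rel (S : LN k × Fin k → Bool) (p : PT k) (l : LN k) : Prop :=
  p.2.val < l.1.val * p.1.val + l.2.val ∨
    (p.2.val = l.1.val * p.1.val + l.2.val ∧ S (l, p.1) = true)

/-- signs -/
def sg (S : LN k × Fin k → Bool) (l : LN k) (x : ℤ) : ℤ :=
  if h : x.toNat < k then (if S (l, ⟨x.toNat, h⟩) = true then 1 else -1) else 1

/-- heights -/
def Ht (S : LN k × Fin k → Bool) (l : LN k) (x : ℤ) : ℤ :=
  5 * ((l.1.val : ℤ) * x + (l.2.val : ℤ)) + sg k S l x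

lemma sg_val (S : LN k × Fin k → Bool) (l : LN k) (x : ℤ) :
    sg k S l x = 1 ∨ sg k S l x = -1 := by
  unfold sg
  split_ifs <;> simp

lemma sc_Ht (S : LN k × Fin k → Bool) : SC (Ht k S) := by
  refine sc_lines (fun l : LN k => (l.1.val : ℤ)) (fun l => (l.2.val : ℤ)) (sg k S) ?_ (sg_val k S)
  intro a b h1 h2
  refine Prod.ext (Fin.ext ?_) (Fin.ext ?_)
  · exact_mod_cast h1
  · exact_mod_cast h2

lemma sg_nat (S : LN k × Fin k → Bool) (l : LN k) (x : Fin k) :
    sg k S l (x.val : ℤ) = if S (l, x) = true then 1 else -1 := by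
  unfold sg
  have h : ((x.val : ℤ)).toNat = x.val := by simp
  rw [dif_pos (by rw [h]; exact x.2)]
  simp

lemma rel_iff (S : LN k × Fin k → Bool) (p : PT k) (l : LN k) :
    Rel k S p l ↔ 5 * (p.2.val : ℤ) < Ht k S l (p.1.val : ℤ) := by
  unfold Rel Ht
  rw [sg_nat]
  have e1 : (p.2.val < l.1.val * p.1.val + l.2.val) ↔
      (p.2.val : ℤ) < (l.1.val : ℤ) * p.1.val + l.2.val := by exact_mod_cast Iff.rfl
  have e2 : (p.2.val = l.1.val * p.1.val + l.2.val) ↔
      (p.2.val : ℤ) = (l.1.val : ℤ) * p.1.val + l.2.val := by exact_mod_cast Iff.rfl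
  rw [e1, e2]
  generalize (l.1.val : ℤ) * p.1.val + l.2.val = w
  cases h : S (l, p.1)
  · simp only [Bool.false_eq_true, and_false, if_false, or_false]
    omega
  · simp only [and_true, if_true]
    omega

lemma ne_Ht (S : LN k × Fin k → Bool) (p : PT k) (l : LN k) :
    5 * (p.2.val : ℤ) ≠ Ht k S l (p.1.val : ℤ) := by
  unfold Ht
  have := sg_val k S l (p.1.val : ℤ)
  omega

lemma no_T (S : LN k × Fin k → Bool) :
    IsEmpty (SimpleGraph.Embedding T (BG (Rel k S))) := by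
  refine ⟨fun φ => ?_⟩
  obtain ⟨A⟩ := extract_T _ φ
  have e : Rel k S = fun (p : PT k) (l : LN k) =>
      (fun p : PT k => 5 * (p.2.val : ℤ)) p < Ht k S l ((fun p : PT k => (p.1.val : ℤ)) p) := by
    funext p l
    exact propext (rel_iff k S p l)
  rw [e] at A
  exact no_pattern (sc_Ht k S) _ _ A

lemma no_coT (S : LN k × Fin k → Bool) :
    IsEmpty (SimpleGraph.Embedding coT (BG (Rel k S))) := by
  refine ⟨fun φ => ?_⟩
  obtain ⟨A⟩ := extract_coT _ φ
  have e : (fun (p : PT k) (l : LN k) => ¬ Rel k S p l) = fun (p : PT k) (l : LN k) =>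
      ¬ (fun p : PT k => 5 * (p.2.val : ℤ)) p < Ht k S l ((fun p : PT k => (p.1.val : ℤ)) p) := by
    funext p l
    rw [rel_iff k S p l]
  rw [e] at A
  exact no_pattern_compl (sc_Ht k S) _ _ (fun p l => ne_Ht k S p l) A

lemma rel_inj (S S' : LN k × Fin k → Bool) (h : ∀ p l, Rel k S p l ↔ Rel k S' p l) :
    S = S' := by
  funext ⟨l, x⟩
  have hlt : l.1.val * x.val + l.2.val < 2 * k ^ 2 := by
    have h1 := l.1.2
    have h2 := x.2
    have h3 := l.2.2
    have : l.1.val * x.val ≤ k * k := Nat.mul_le_mul h1.le h2.le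
    nlinarith
  have := h (x, ⟨l.1.val * x.val + l.2.val, hlt⟩) l
  unfold Rel at this
  simp only [lt_irrefl, true_and, false_or] at this
  exact Bool.eq_iff_iff.2 this

/-- labelling -/
noncomputable def lab : Fin (3 * k ^ 3) ≃ PT k ⊕ LN k :=
  (Fintype.equivFinOfCardEq (by
    simp only [Fintype.card_sum, Fintype.card_prod, Fintype.card_fin]; ring)).symm

/-- The labelled graph. -/
noncomputable def GS (S : LN k × Fin k → Bool) : SimpleGraph (Fin (3 * k ^ 3)) :=
  (BG (Rel k S)).comap (lab k)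

/-- isomorphism -/
noncomputable def isoGS (S : LN k × Fin k → Bool) : (GS k S) ≃g (BG (Rel k S)) :=
  SimpleGraph.Iso.comap (lab k) (BG (Rel k S))

lemma GS_inj : Function.Injective (GS k) := by
  intro S S' h
  refine rel_inj k S S' ?_
  intro p l
  have h1 : (GS k S).Adj ((lab k).symm (Sum.inl p)) ((lab k).symm (Sum.inr l)) ↔
      Rel k S p l := by
    unfold GS
    rw [SimpleGraph.comap_adj, Equiv.apply_symm_apply, Equiv.apply_symm_apply, BG_adj]
  have h2 : (GS k S').Adj ((lab k).symm (Sum.inl p)) ((lab k).symm (Sum.inr l)) ↔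
      Rel k S' p l := by
    unfold GS
    rw [SimpleGraph.comap_adj, Equiv.apply_symm_apply, Equiv.apply_symm_apply, BG_adj]
  rw [← h1, ← h2, h]

lemma GS_col (S : LN k × Fin k → Bool) : (GS k S).Colorable 2 := by
  have c : (GS k S).Coloring Bool := SimpleGraph.Coloring.mk (fun v => (lab k v).isLeft) (by
    intro u v h
    have h' : (BG (Rel k S)).Adj (lab k u) (lab k v) := h
    have := BG_isLeft h'
    rw [this]
    cases (lab k v).isLeft <;> simp)
  have := c.colorable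
  simpa using this

/-- The set in the statement. -/
def Cls (n : ℕ) : Set (SimpleGraph (Fin n)) :=
  {G | G.Colorable 2 ∧ IsEmpty (SimpleGraph.Embedding T G) ∧
    IsEmpty (SimpleGraph.Embedding coT G)}

lemma GS_mem (S : LN k × Fin k → Bool) : GS k S ∈ Cls (3 * k ^ 3) := by
  refine ⟨GS_col k S, ⟨fun φ => ?_⟩, ⟨fun φ => ?_⟩⟩
  · exact (no_T k S).false ((isoGS k S).toEmbedding.comp φ)
  · exact (no_coT k S).false ((isoGS k S).toEmbedding.comp φ)

lemma card_Cls : 2 ^ (k ^ 4) ≤ (Cls (3 * k ^ 3)).ncard := by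
  have h1 : Set.range (GS k) ⊆ Cls (3 * k ^ 3) := by
    rintro G ⟨S, rfl⟩
    exact GS_mem k S
  have h2 : (Set.range (GS k)).ncard = 2 ^ (k ^ 4) := by
    rw [← Set.image_univ, Set.ncard_image_of_injective _ (GS_inj k), Set.ncard_univ,
      Nat.card_eq_fintype_card, Fintype.card_fun]
    simp only [Fintype.card_bool, Fintype.card_prod, Fintype.card_fin]
    congr 1
    ring
  rw [← h2]
  exact Set.ncard_le_ncard h1 (Set.toFinite _)

lemma big (C : ℕ) : ∃ k : ℕ, (3 * k ^ 3 + 1) ^ (C * (3 * k ^ 3)) < 2 ^ (k ^ 4) := by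
  -- k = 2 ^ j with 3 C (3 j + 2) < 2 ^ j
  obtain ⟨j, hj⟩ : ∃ j : ℕ, 3 * C * (3 * j + 2) < 2 ^ j := by
    refine ⟨2 * (24 * C + 1), ?_⟩
    have h1 : 24 * C + 1 < 2 ^ (24 * C + 1) := Nat.lt_two_pow_self
    rw [two_mul, pow_add]
    nlinarith
  refine ⟨2 ^ j, ?_⟩
  have hb : 3 * (2 ^ j) ^ 3 + 1 ≤ 2 ^ (3 * j + 2) := by
    have : 1 ≤ (2 ^ j) ^ 3 := Nat.one_le_pow _ _ (by positivity)
    have e : 2 ^ (3 * j + 2) = 4 * (2 ^ j) ^ 3 := by
      rw [pow_add, mul_comm 3 j, pow_mul]; ring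
    rw [e]; omega
  calc (3 * (2 ^ j) ^ 3 + 1) ^ (C * (3 * (2 ^ j) ^ 3))
      ≤ (2 ^ (3 * j + 2)) ^ (C * (3 * (2 ^ j) ^ 3)) := Nat.pow_le_pow_left hb _
    _ = 2 ^ ((3 * j + 2) * (C * (3 * (2 ^ j) ^ 3))) := by rw [← pow_mul]
    _ < 2 ^ ((2 ^ j) ^ 4) := by
        refine Nat.pow_lt_pow_right (by norm_num) ?_
        have hp : 0 < (2 ^ j) ^ 3 := by positivity
        calc (3 * j + 2) * (C * (3 * (2 ^ j) ^ 3)) = (3 * C * (3 * j + 2)) * (2 ^ j) ^ 3 := by ring
          _ < 2 ^ j * (2 ^ j) ^ 3 := Nat.mul_lt_mul_of_pos_right hj hp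
          _ = (2 ^ j) ^ 4 := by ring

theorem main : ∀ C : ℕ, ∃ n : ℕ, (n + 1) ^ (C * n) < (Cls n).ncard := by
  intro C
  obtain ⟨k, hk⟩ := big C
  exact ⟨3 * k ^ 3, lt_of_lt_of_le hk (card_Cls k)⟩

end Pool.Agent.Helper18.TreeSpeed
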