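import Pool.Agent.Helper18.TreeSpeed.Tree

/-!
# From an embedding of `T` (or of its bipartite complement) to a pattern
-/

set_option autoImplicit false

namespace Pool.Agent.Helper18.TreeSpeed

/-- The bipartite graph of a relation. -/
def BG {P L : Type*} (R : P → L → Prop) : SimpleGraph (P ⊕ L) where
  Adj u v := (∃ p l, u = Sum.inl p ∧ v = Sum.inr l ∧ R p l) ∨
    (∃ p l, v = Sum.inl p ∧ u = Sum.inr l ∧ R p l)
  symm := ⟨fun _ _ h => h.symm⟩
  loopless := ⟨by
    rintro u (⟨p, l, h1, h2, _⟩ | ⟨p, l, h1, h2, _⟩) <;> rw [h1] at h2 <;> cases h2⟩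

lemma BG_adj {P L : Type*} {R : P → L → Prop} {p : P} {l : L} :
    (BG R).Adj (Sum.inl p) (Sum.inr l) ↔ R p l := by
  constructor
  · rintro (⟨p', l', h1, h2, h⟩ | ⟨p', l', h1, h2, h⟩)
    · cases h1; cases h2; exact h
    · cases h1
  · intro h
    exact Or.inl ⟨p, l, rfl, rfl, h⟩

lemma BG_isLeft {P L : Type*} {R : P → L → Prop} {u v : P ⊕ L} (h : (BG R).Adj u v) :
    u.isLeft = !v.isLeft := by
  rcases h with ⟨p, l, h1, h2, _⟩ | ⟨p, l, h1, h2, _⟩ <;> rw [h1, h2] <;> rfl

/-- centres -/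
def cI (b : Bool) : Fin 32 := if b then 0 else 16

/-- lines -/
def lI (b : Bool) (j : Fin 6) : Fin 32 :=
  if b then ([1,2,3,7,8,9] : List (Fin 32)).getD j.val 0
  else ([17,18,19,23,24,25] : List (Fin 32)).getD j.val 0

/-- subdivision points -/
def sI (b : Bool) (j : Fin 3) : Fin 32 :=
  if b then ([4,5,6] : List (Fin 32)).getD j.val 0
  else ([20,21,22] : List (Fin 32)).getD j.val 0

/-- private points -/
def qI (b : Bool) (j : Fin 6) : Fin 32 :=
  if b then ([10,11,12,13,14,15] : List (Fin 32)).getD j.val 0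
  else ([26,27,28,29,30,31] : List (Fin 32)).getD j.val 0

lemma f1 : ∀ (b : Bool) (j : Fin 6), T.Adj (cI b) (lI b j) ↔ j.val < 3 := by decide
lemma f2 : ∀ (b : Bool) (i : Fin 3) (j : Fin 6),
    T.Adj (sI b i) (lI b j) ↔ (j.val = i.val ∨ j.val = i.val + 3) := by decide
lemma f3 : ∀ (b : Bool) (i : Fin 6) (j : Fin 6), T.Adj (qI b i) (lI b j) ↔ i = j := by decide
lemma g1 : ∀ b : Bool, (b == side (cI b)) = true := by decide
lemma g2 : ∀ (b : Bool) (j : Fin 6), (b == side (lI b j)) = false := by decide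
lemma g3 : ∀ (b : Bool) (j : Fin 3), (b == side (sI b j)) = true := by decide
lemma g4 : ∀ (b : Bool) (j : Fin 6), (b == side (qI b j)) = true := by decide

lemma extract {P L : Type*} (Q : P → L → Prop) (φ : Fin 32 → P ⊕ L) (b : Bool)
    (hside : ∀ v, (φ v).isLeft = (b == side v))
    (hadj : ∀ u v p l, φ u = Sum.inl p → φ v = Sum.inr l → (T.Adj u v ↔ Q p l)) :
    Nonempty (Pattern Q) := by
  have hl : ∀ v, (b == side v) = true → ∃ p, φ v = Sum.inl p := by
    intro v hv
    have := hside v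
    rw [hv] at this
    exact Sum.isLeft_iff.1 this
  have hr : ∀ v, (b == side v) = false → ∃ l, φ v = Sum.inr l := by
    intro v hv
    have := hside v
    rw [hv] at this
    exact Sum.isLeft_eq_false.1 this |> Sum.isRight_iff.1
  obtain ⟨p, hp⟩ := hl (cI b) (g1 b)
  choose l hl' using fun j => hr (lI b j) (g2 b j)
  choose s hs using fun j => hl (sI b j) (g3 b j)
  choose q hq using fun j => hl (qI b j) (g4 b j)
  refine ⟨⟨p, s, q, l, ?_, ?_, ?_⟩⟩
  · intro j
    rw [← hadj _ _ _ _ hp (hl' j)]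
    exact f1 b j
  · intro i j
    rw [← hadj _ _ _ _ (hs i) (hl' j)]
    exact f2 b i j
  · intro i j
    rw [← hadj _ _ _ _ (hq i) (hl' j)]
    exact f3 b i j

lemma extract_T {P L : Type*} (R : P → L → Prop) (φ : SimpleGraph.Embedding T (BG R)) :
    Nonempty (Pattern R) := by
  refine extract R φ (φ 0).isLeft ?_ ?_
  · intro v
    induction hn : v.val using Nat.strong_induction_on generalizing v with
    | _ n ih =>
      by_cases h : v = 0
      · rw [h]
        have : side 0 = true := by decide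
        rw [this]
        cases (φ 0).isLeft <;> rfl
      · have h1 := ih (par v).val (hn ▸ par_lt v h) (par v) rfl
        have h2 : (BG R).Adj (φ v) (φ (par v)) := φ.map_adj_iff.2 (adj_par h)
        rw [BG_isLeft h2, h1, side_par v h]
        cases (φ 0).isLeft <;> cases side (par v) <;> rfl
  · intro u v p l hu hv
    rw [← φ.map_adj_iff, hu, hv, BG_adj]

lemma k1 : ∀ v : Fin 32, side v = true →
    (side v ≠ side 31 ∧ ¬ T.Adj v 31) ∨ (side v ≠ side 30 ∧ ¬ T.Adj v 30) := by decide
lemma k2 : ∀ v : Fin 32, side v = false →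
    ∃ u : Fin 32, side u = true ∧ (side v ≠ side u ∧ ¬ T.Adj v u) := by decide
lemma k3 : (side 31 ≠ side 0 ∧ ¬ T.Adj 31 0) ∧ (side 30 ≠ side 0 ∧ ¬ T.Adj 30 0) := by decide

lemma extract_coT {P L : Type*} (R : P → L → Prop) (φ : SimpleGraph.Embedding coT (BG R)) :
    Nonempty (Pattern (fun p l => ¬ R p l)) := by
  have hco : ∀ u v, (side u ≠ side v ∧ ¬ T.Adj u v) → (φ u).isLeft = !(φ v).isLeft := by
    intro u v h
    exact BG_isLeft (φ.map_adj_iff.2 ((coT_adj u v).2 h))
  have e31 := hco _ _ k3.1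
  have e30 := hco _ _ k3.2
  have htrue : ∀ v, side v = true → (φ v).isLeft = (φ 0).isLeft := by
    intro v hv
    rcases k1 v hv with h | h
    · rw [hco _ _ h, e31]; simp
    · rw [hco _ _ h, e30]; simp
  have hside : ∀ v, (φ v).isLeft = ((φ 0).isLeft == side v) := by
    intro v
    cases hv : side v
    · obtain ⟨u, hu, h⟩ := k2 v hv
      rw [hco _ _ h, htrue u hu]
      cases (φ 0).isLeft <;> rfl
    · rw [htrue v hv]
      cases (φ 0).isLeft <;> rfl
  refine extract _ φ (φ 0).isLeft hside ?_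
  intro u v p l hu hv
  have hne : side u ≠ side v := by
    intro h
    have h1 := hside u
    have h2 := hside v
    rw [hu] at h1
    rw [hv] at h2
    rw [h, ← h2] at h1
    cases h1
  have h3 : coT.Adj u v ↔ R p l := by rw [← φ.map_adj_iff, hu, hv, BG_adj]
  rw [← h3, coT_adj]
  tauto

end Pool.Agent.Helper18.TreeSpeed
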