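import Pool.Agent.Helper18.TreeSpeed.Core

/-!
# The tree `T` on 32 vertices: two copies of `T₁` with adjacent centres
-/

set_option autoImplicit false

namespace Pool.Agent.Helper18.TreeSpeed

/-- parents -/
def parL : List (Fin 32) := [0,0,0,0,1,2,3,4,5,6,1,2,3,7,8,9, 0,16,16,16,17,18,19,20,21,22,17,18,19,23,24,25]

/-- parent function -/
def par (i : Fin 32) : Fin 32 := parL.getD i.val 0

/-- sides: `true` for the side of the vertex `0` -/
def sideL : List Bool := [true, false,false,false, true,true,true, false,false,false,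
  true,true,true,true,true,true,
  false, true,true,true, false,false,false, true,true,true, false,false,false,false,false,false]

/-- side function -/
def side (i : Fin 32) : Bool := sideL.getD i.val false

/-- The tree. -/
def T : SimpleGraph (Fin 32) where
  Adj i j := i ≠ j ∧ (par i = j ∨ par j = i)
  symm := ⟨fun _ _ h => ⟨h.1.symm, h.2.symm⟩⟩
  loopless := ⟨fun _ h => h.1 rfl⟩

instance : DecidableRel T.Adj := fun i j =>
  inferInstanceAs (Decidable (i ≠ j ∧ (par i = j ∨ par j = i)))

lemma par_lt : ∀ i : Fin 32, i ≠ 0 → par i < i := by decide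

lemma side_par : ∀ i : Fin 32, i ≠ 0 → side i = !side (par i) := by decide

lemma adj_par {i : Fin 32} (h : i ≠ 0) : T.Adj i (par i) :=
  ⟨(par_lt i h).ne', Or.inl rfl⟩

lemma T_connected : T.Connected := by
  have : Nonempty (Fin 32) := ⟨0⟩
  rw [SimpleGraph.connected_iff_exists_forall_reachable]
  refine ⟨0, fun i => ?_⟩
  induction hn : i.val using Nat.strong_induction_on generalizing i with
  | _ n ih =>
    by_cases h : i = 0
    · rw [h]
    · have h1 := ih (par i).val (hn ▸ par_lt i h) (par i) rfl
      exact h1.trans (adj_par h).symm.reachable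

lemma T_card : T.edgeFinset.card = 31 := by
  decide

lemma T_isTree : T.IsTree := by
  rw [SimpleGraph.isTree_iff_connected_and_card]
  refine ⟨T_connected, ?_⟩
  rw [Nat.card_eq_fintype_card, Nat.card_eq_fintype_card, ← SimpleGraph.edgeFinset_card, T_card]
  simp

lemma side_of_adj : ∀ i j : Fin 32, T.Adj i j → side i ≠ side j := by decide

/-- the sides as a colouring -/
def col : T.Coloring Bool := SimpleGraph.Coloring.mk side (fun {u v} h => side_of_adj u v h)

lemma odd_dist (u v : Fin 32) : Odd (T.dist u v) ↔ side u ≠ side v := by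
  obtain ⟨p, hp⟩ := T_connected.exists_walk_length_eq_dist u v
  rw [← hp, col.odd_length_iff_not_congr p]
  have h1 : col u = side u := rfl
  have h2 : col v = side v := rfl
  rw [h1, h2]
  cases side u <;> cases side v <;> simp

/-- The bipartite complement, as in the statement. -/
def coT : SimpleGraph (Fin 32) :=
  SimpleGraph.fromRel (fun u v : Fin 32 => Odd (T.dist u v) ∧ ¬ T.Adj u v)

lemma coT_adj (u v : Fin 32) : coT.Adj u v ↔ side u ≠ side v ∧ ¬ T.Adj u v := by
  rw [coT, SimpleGraph.fromRel_adj, odd_dist, odd_dist, T.adj_comm v u, ne_comm (a := side v)]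
  constructor
  · rintro ⟨_, h | h⟩ <;> exact h
  · intro h
    exact ⟨fun e => h.1 (by rw [e]), Or.inl h⟩

end Pool.Agent.Helper18.TreeSpeed
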